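import Mathlib

set_option autoImplicit false
set_option linter.constructorNameAsVariable false

/-!
# Counting sumsets with bit masks
-/

namespace Pool.Agent.J6H38.FD

open Finset

/-- the mask of `l` shifted copies of `m` -/
def conv (m : ℕ) (l : List ℕ) : ℕ := l.foldr (fun s acc => acc ||| (m <<< s)) 0

lemma testBit_conv (m : ℕ) (l : List ℕ) (x : ℕ) :
    (conv m l).testBit x = true ↔ ∃ s ∈ l, s ≤ x ∧ m.testBit (x - s) = true := by
  induction l with
  | nil => simp [conv]
  | cons a l ih =>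
    have e : conv m (a :: l) = conv m l ||| (m <<< a) := rfl
    rw [e, Nat.testBit_or, Bool.or_eq_true, ih, Nat.testBit_shiftLeft, Bool.and_eq_true, decide_eq_true_eq]
    constructor
    · rintro (⟨s, hs, h⟩ | h)
      · exact ⟨s, List.mem_cons_of_mem _ hs, h⟩
      · exact ⟨a, List.mem_cons_self, h⟩
    · rintro ⟨s, hs, h⟩
      rcases List.mem_cons.1 hs with rfl | hs
      · exact Or.inr h
      · exact Or.inl ⟨s, hs, h⟩

lemma testBit_one_iff (x : ℕ) : (1 : ℕ).testBit x = true ↔ x = 0 := by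
  rw [show (1 : ℕ) = 2 ^ 0 by norm_num, Nat.testBit_two_pow]
  simp [eq_comm]

lemma testBit_mask (l : List ℕ) (x : ℕ) : (conv 1 l).testBit x = true ↔ x ∈ l := by
  rw [testBit_conv]
  constructor
  · rintro ⟨s, hs, h1, h2⟩
    rw [testBit_one_iff] at h2
    have : x = s := by omega
    exact this ▸ hs
  · intro h
    exact ⟨x, h, le_rfl, by rw [testBit_one_iff]; omega⟩

/-- number of the bits of `n` in `[a, a + 2 ^ d)` -/
def cnt (n : ℕ) : ℕ → ℕ → ℕ
  | 0, a => if n.testBit a then 1 else 0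
  | d + 1, a => cnt n d a + cnt n d (a + 2 ^ d)

lemma cnt_eq (n d a : ℕ) : ((Finset.Ico a (a + 2 ^ d)).filter (fun x => n.testBit x = true)).card = cnt n d a := by
  induction d generalizing a with
  | zero =>
    have e : Finset.Ico a (a + 2 ^ 0) = {a} := by
      ext x
      rw [mem_Ico, mem_singleton]
      omega
    rw [e, Finset.filter_singleton]
    unfold cnt
    split_ifs <;> simp
  | succ d ih =>
    have e : Finset.Ico a (a + 2 ^ (d + 1)) = Finset.Ico a (a + 2 ^ d) ∪ Finset.Ico (a + 2 ^ d) (a + 2 ^ d + 2 ^ d) := by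
      ext x
      have := Nat.pos_of_ne_zero (show (2 : ℕ) ^ d ≠ 0 by positivity)
      rw [mem_union, mem_Ico, mem_Ico, mem_Ico, pow_succ]
      omega
    have hd : Disjoint (Finset.Ico a (a + 2 ^ d)) (Finset.Ico (a + 2 ^ d) (a + 2 ^ d + 2 ^ d)) := by
      rw [Finset.disjoint_left]
      intro x h1 h2
      rw [mem_Ico] at h1 h2
      omega
    rw [e, Finset.filter_union, Finset.card_union_of_disjoint (Finset.disjoint_filter_filter hd), ih, ih]
    rfl

/-- the set `{s + d t}` -/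
def Dil (l : List ℕ) (d : ℕ) : Finset ℕ := (l.toFinset ×ˢ l.toFinset).image (fun p => p.1 + d * p.2)

lemma mem_Dil (l : List ℕ) (d x : ℕ) :
    x ∈ Dil l d ↔ (conv (conv 1 l) (l.map (fun t => d * t))).testBit x = true := by
  rw [testBit_conv]
  unfold Dil
  rw [mem_image]
  constructor
  · rintro ⟨⟨s, t⟩, h, rfl⟩
    rw [mem_product, List.mem_toFinset, List.mem_toFinset] at h
    refine ⟨d * t, List.mem_map.2 ⟨t, h.2, rfl⟩, Nat.le_add_left _ _, ?_⟩
    rw [testBit_mask, Nat.add_sub_cancel]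
    exact h.1
  · rintro ⟨u, hu, h1, h2⟩
    obtain ⟨t, ht, rfl⟩ := List.mem_map.1 hu
    rw [testBit_mask] at h2
    refine ⟨(x - d * t, t), ?_, ?_⟩
    · rw [mem_product, List.mem_toFinset, List.mem_toFinset]
      exact ⟨h2, ht⟩
    · exact Nat.sub_add_cancel h1

lemma card_Dil (l : List ℕ) (d D : ℕ) (h : ∀ x ∈ Dil l d, x < 2 ^ D) :
    (Dil l d).card = cnt (conv (conv 1 l) (l.map (fun t => d * t))) D 0 := by
  rw [← cnt_eq]
  congr 1
  ext x
  rw [mem_filter, mem_Ico, ← mem_Dil]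
  constructor
  · intro hx
    exact ⟨⟨Nat.zero_le _, by rw [zero_add]; exact h x hx⟩, hx⟩
  · exact fun hx => hx.2

/-- the counterexample: `{32 t : t < 64} ∪ {c + 2048 i : 1 ≤ c < 32, i ≤ 5}` -/
def SL : List ℕ := (List.range 64).map (fun t => 32 * t) ++
  (List.range 6).flatMap (fun i => (List.range 31).map (fun c => c + 1 + 2048 * i))

lemma SL_lt : ∀ s ∈ SL, s < 10272 := by decide +kernel

lemma Dil_lt (d : ℕ) (hd : d ≤ 2) : ∀ x ∈ Dil SL d, x < 2 ^ 15 := by
  intro x hx
  unfold Dil at hx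
  rw [mem_image] at hx
  obtain ⟨⟨s, t⟩, h, rfl⟩ := hx
  rw [mem_product, List.mem_toFinset, List.mem_toFinset] at h
  have h1 := SL_lt s h.1
  have h2 := SL_lt t h.2
  have h3 : d * t ≤ 2 * t := Nat.mul_le_mul_right t hd
  show s + d * t < 2 ^ 15
  norm_num
  omega

lemma card_one : (Dil SL 1).card = 12340 := by
  rw [card_Dil SL 1 15 (Dil_lt 1 (by norm_num))]
  decide +kernel

lemma card_two : (Dil SL 2).card = 12126 := by
  rw [card_Dil SL 2 15 (Dil_lt 2 (by norm_num))]
  decide +kernel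

end Pool.Agent.J6H38.FD
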