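import Pool.Agent.J6H38.FD.Mask

set_option autoImplicit false

/-!
# Fractional dilates: indicator functions, and powers of a finite set
-/

namespace Pool.Agent.J6H38.FD

open Finset
open scoped ENNReal NNReal

/-- `‖α + d · α‖` for a fractional dilate `α` -/
noncomputable def nrm (d : ℤ) (α : ℤ → ℝ≥0) : ℝ≥0∞ :=
  ⨅ p ∈ Set.Ioo (0 : ℝ) 1, ∑' i : ℤ, (∑' k : ℤ, (α (i - d * k) : ℝ≥0∞) * (α k : ℝ≥0∞)) ^ p

/-- the indicator function of a finite set -/
noncomputable def ind (S : Finset ℤ) : ℤ → ℝ≥0 := fun i => if i ∈ S then 1 else 0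

/-- the sum of dilates `S + d · S` -/
def dil (S : Finset ℤ) (d : ℤ) : Finset ℤ := (S ×ˢ S).image (fun p => p.1 + d * p.2)

/-- the number of representations -/
def rep (S : Finset ℤ) (d i : ℤ) : ℕ := (S.filter (fun k => i - d * k ∈ S)).card

lemma inner_eq (S : Finset ℤ) (d i : ℤ) :
    ∑' k : ℤ, (ind S (i - d * k) : ℝ≥0∞) * (ind S k : ℝ≥0∞) = (rep S d i : ℝ≥0∞) := by
  rw [tsum_eq_sum (s := S)]
  · unfold rep
    rw [Finset.card_filter]
    push_cast
    apply Finset.sum_congr rfl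
    intro k hk
    unfold ind
    rw [if_pos hk]
    by_cases h : i - d * k ∈ S
    · rw [if_pos h, if_pos h]
      simp
    · rw [if_neg h, if_neg h]
      simp
  · intro k hk
    unfold ind
    rw [if_neg hk]
    simp

lemma mem_dil (S : Finset ℤ) (d i : ℤ) : i ∈ dil S d ↔ 1 ≤ rep S d i := by
  unfold dil rep
  rw [mem_image, Nat.one_le_iff_ne_zero, Ne, Finset.card_eq_zero, ← Ne, ← Finset.nonempty_iff_ne_empty]
  constructor
  · rintro ⟨⟨s, t⟩, h, rfl⟩
    rw [mem_product] at h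
    refine ⟨t, mem_filter.2 ⟨h.2, ?_⟩⟩
    have e : s + d * t - d * t = s := by ring
    simp only
    rw [e]
    exact h.1
  · rintro ⟨t, ht⟩
    rw [mem_filter] at ht
    exact ⟨(i - d * t, t), mem_product.2 ⟨ht.2, ht.1⟩, by simp⟩

lemma rep_le (S : Finset ℤ) (d i : ℤ) : rep S d i ≤ S.card := Finset.card_filter_le _ _

theorem le_nrm (S : Finset ℤ) (d : ℤ) : ((dil S d).card : ℝ≥0∞) ≤ nrm d (ind S) := by
  unfold nrm
  refine le_iInf₂ (fun p hp => ?_)
  simp only [inner_eq]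
  refine le_trans ?_ (ENNReal.sum_le_tsum (dil S d))
  rw [Finset.card_eq_sum_ones]
  push_cast
  apply Finset.sum_le_sum
  intro i hi
  have h1 : (1 : ℝ≥0∞) ≤ (rep S d i : ℝ≥0∞) := by
    exact_mod_cast (mem_dil S d i).1 hi
  calc (1 : ℝ≥0∞) = 1 ^ p := (ENNReal.one_rpow p).symm
    _ ≤ (rep S d i : ℝ≥0∞) ^ p := ENNReal.rpow_le_rpow h1 hp.1.le

theorem nrm_le (S : Finset ℤ) (d : ℤ) (p : ℝ) (hp : p ∈ Set.Ioo (0 : ℝ) 1) :
    nrm d (ind S) ≤ (dil S d).card * (S.card : ℝ≥0∞) ^ p := by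
  unfold nrm
  refine (iInf₂_le p hp).trans ?_
  simp only [inner_eq]
  rw [tsum_eq_sum (s := dil S d)]
  · refine (Finset.sum_le_card_nsmul _ _ ((S.card : ℝ≥0∞) ^ p) ?_).trans ?_
    · intro i _
      apply ENNReal.rpow_le_rpow _ hp.1.le
      exact_mod_cast rep_le S d i
    · rw [nsmul_eq_mul]
  · intro i hi
    rw [mem_dil] at hi
    have : rep S d i = 0 := by omega
    rw [this]
    simp [ENNReal.zero_rpow_of_pos hp.1]

/-- the norm of an indicator function -/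
theorem nrm_ind (S : Finset ℤ) (d : ℤ) : nrm d (ind S) = (dil S d).card := by
  apply le_antisymm _ (le_nrm S d)
  rcases Nat.eq_zero_or_pos S.card with h0 | h0
  · have h := nrm_le S d (1 / 2) ⟨by norm_num, by norm_num⟩
    rw [h0] at h
    refine h.trans ?_
    rw [Nat.cast_zero, ENNReal.zero_rpow_of_pos (by norm_num)]
    simp
  · -- let `p` tend to zero
    have hlim : Filter.Tendsto (fun p : ℝ => ((dil S d).card : ℝ≥0∞) * (S.card : ℝ≥0∞) ^ p)
        (nhdsWithin 0 (Set.Ioi 0)) (nhds (((dil S d).card : ℝ≥0∞) * 1)) := by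
      apply ENNReal.Tendsto.const_mul _ (Or.inl one_ne_zero)
      have hc : Filter.Tendsto (fun p : ℝ => ENNReal.ofReal ((S.card : ℝ) ^ p)) (nhds 0)
          (nhds (ENNReal.ofReal ((S.card : ℝ) ^ (0 : ℝ)))) := by
        apply ENNReal.tendsto_ofReal
        exact (Real.continuous_const_rpow (by exact_mod_cast h0.ne')).tendsto 0
      rw [Real.rpow_zero, ENNReal.ofReal_one] at hc
      refine (hc.mono_left nhdsWithin_le_nhds).congr' ?_
      filter_upwards [self_mem_nhdsWithin] with p hp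
      rw [← ENNReal.ofReal_rpow_of_pos (by exact_mod_cast h0), ENNReal.ofReal_natCast]
    rw [mul_one] at hlim
    refine ge_of_tendsto hlim ?_
    have : Set.Ioo (0 : ℝ) 1 ∈ nhdsWithin (0 : ℝ) (Set.Ioi 0) := Ioo_mem_nhdsGT (by norm_num)
    filter_upwards [this] with p hp
    exact nrm_le S d p hp

/-! ## Products -/

/-- `{s + d t}` for finite sets of natural numbers -/
def Dn (S : Finset ℕ) (d : ℕ) : Finset ℕ := (S ×ˢ S).image (fun p => p.1 + d * p.2)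

/-- the pairing with the base `B` -/
def pair (B : ℕ) (S T : Finset ℕ) : Finset ℕ := (S ×ˢ T).image (fun p => p.1 + B * p.2)

lemma card_pair (B : ℕ) (S T : Finset ℕ) (h : ∀ s ∈ S, s < B) : (pair B S T).card = S.card * T.card := by
  unfold pair
  rw [Finset.card_image_of_injOn, Finset.card_product]
  rintro ⟨s, t⟩ h1 ⟨s', t'⟩ h2 h3
  rw [Finset.mem_coe, mem_product] at h1 h2
  have e : s + B * t = s' + B * t' := h3
  have hs := h s h1.1
  have hs' := h s' h2.1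
  have hB : 0 < B := by omega
  have e1 : s = s' := by
    have h4 := congrArg (fun x => x % B) e
    simp only [Nat.add_mul_mod_self_left] at h4
    rwa [Nat.mod_eq_of_lt hs, Nat.mod_eq_of_lt hs'] at h4
  subst e1
  have e2 : t = t' := Nat.eq_of_mul_eq_mul_left hB (by omega)
  rw [e2]

lemma Dn_pair (B : ℕ) (S T : Finset ℕ) (d : ℕ) : Dn (pair B S T) d = pair B (Dn S d) (Dn T d) := by
  ext x
  unfold Dn pair
  simp only [mem_image, mem_product, Prod.exists]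
  constructor
  · rintro ⟨a, b, ⟨⟨s, t, ⟨hs, ht⟩, rfl⟩, s', t', ⟨hs', ht'⟩, rfl⟩, rfl⟩
    exact ⟨s + d * s', t + d * t', ⟨⟨s, s', ⟨hs, hs'⟩, rfl⟩, t, t', ⟨ht, ht'⟩, rfl⟩, by ring⟩
  · rintro ⟨a, b, ⟨⟨s, s', ⟨hs, hs'⟩, rfl⟩, t, t', ⟨ht, ht'⟩, rfl⟩, rfl⟩
    exact ⟨s + B * t, s' + B * t', ⟨⟨s, t, ⟨hs, ht⟩, rfl⟩, s', t', ⟨hs', ht'⟩, rfl⟩, by ring⟩

/-- the powers -/
def Pw (B : ℕ) (S : Finset ℕ) : ℕ → Finset ℕ
  | 0 => {0}
  | m + 1 => pair B S (Pw B S m)

lemma card_Pw (B : ℕ) (S : Finset ℕ) (d : ℕ) (h : ∀ x ∈ Dn S d, x < B) (m : ℕ) :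
    (Dn (Pw B S m) d).card = (Dn S d).card ^ m := by
  induction m with
  | zero => simp [Pw, Dn]
  | succ m ih =>
    rw [show Pw B S (m + 1) = pair B S (Pw B S m) from rfl, Dn_pair, card_pair _ _ _ h, ih, pow_succ, mul_comm]

/-- from natural numbers to integers -/
lemma card_dil (S : Finset ℕ) (d : ℕ) :
    (dil (S.image (fun n : ℕ => (n : ℤ))) (d : ℤ)).card = (Dn S d).card := by
  have e : dil (S.image (fun n : ℕ => (n : ℤ))) (d : ℤ) = (Dn S d).image (fun n : ℕ => (n : ℤ)) := by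
    ext x
    unfold dil Dn
    simp only [mem_image, mem_product, Prod.exists]
    constructor
    · rintro ⟨_, _, ⟨⟨s, hs, rfl⟩, t, ht, rfl⟩, rfl⟩
      exact ⟨s + d * t, ⟨s, t, ⟨hs, ht⟩, rfl⟩, by push_cast; ring⟩
    · rintro ⟨_, ⟨s, t, ⟨hs, ht⟩, rfl⟩, rfl⟩
      exact ⟨s, t, ⟨⟨s, hs, rfl⟩, t, ht, rfl⟩, by push_cast; ring⟩
  rw [e, Finset.card_image_of_injective _ Nat.cast_injective]

lemma Dn_SL (d : ℕ) : Dn SL.toFinset d = Dil SL d := rfl

/-- **Sums of dilates smaller than the sumset.** -/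
theorem main (C : ℕ) : ∃ S : Finset ℤ, C * (dil S 2).card < (dil S 1).card := by
  obtain ⟨m, hm⟩ : ∃ m : ℕ, C * 12126 ^ m < 12340 ^ m := by
    obtain ⟨m, hm⟩ := pow_unbounded_of_one_lt (C : ℝ) (show (1 : ℝ) < 12340 / 12126 by norm_num)
    refine ⟨m, ?_⟩
    rw [div_pow, lt_div_iff₀ (by positivity)] at hm
    exact_mod_cast hm
  refine ⟨(Pw (2 ^ 15) SL.toFinset m).image (fun n : ℕ => (n : ℤ)), ?_⟩
  have h1 := card_dil (Pw (2 ^ 15) SL.toFinset m) 1
  have h2 := card_dil (Pw (2 ^ 15) SL.toFinset m) 2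
  rw [Nat.cast_one] at h1
  rw [Nat.cast_ofNat] at h2
  rw [h1, h2, card_Pw _ _ 1 (by rw [Dn_SL]; exact Dil_lt 1 (by norm_num)),
    card_Pw _ _ 2 (by rw [Dn_SL]; exact Dil_lt 2 (by norm_num)), Dn_SL, Dn_SL, card_one, card_two]
  exact hm

end Pool.Agent.J6H38.FD
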